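import Pool.Agent.H52T.Lin
import Pool.Agent.H42.TR.Basic

set_option autoImplicit false

/-! Six decomposable 2-forms on a real 5-dimensional space have a common isotropic plane. -/

open Module Submodule Set Topology

namespace Pool.Agent.H52T

open Pool.Agent.H42.TR (isClosed_proj)

/-- a connectedness argument on the circle -/
theorem exists_null {E F : Type*} [NormedAddCommGroup E] [NormedSpace ℝ E]
    [FiniteDimensional ℝ E] [NormedAddCommGroup F] [NormedSpace ℝ F] [FiniteDimensional ℝ F]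
    (Φ : ℝ → E →ₗ[ℝ] F) (hΦ : Continuous fun p : ℝ × E => Φ p.1 p.2)
    (hdim : finrank ℝ F < finrank ℝ E) (q : E → ℝ) (hq : Continuous q)
    (hq2 : ∀ (c : ℝ) u, q (c • u) = c ^ 2 * q u) (τ : E → E) (hτ0 : ∀ u, u ≠ 0 → τ u ≠ 0)
    (hτq : ∀ u, q (τ u) = - q u) (hτ : ∀ θ u, Φ θ u = 0 → Φ (θ + Real.pi) (τ u) = 0) :
    ∃ θ u, u ≠ 0 ∧ Φ θ u = 0 ∧ q u = 0 := by
  by_contra hno
  push Not at hno
  have hK : IsCompact (Metric.sphere (0 : E) 1) := isCompact_sphere _ _
  let P : Set ℝ := {θ | ∃ u ∈ Metric.sphere (0 : E) 1, (θ, u) ∈ {p : ℝ × E | Φ p.1 p.2 = 0 ∧ 0 ≤ q p.2}}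
  let N : Set ℝ := {θ | ∃ u ∈ Metric.sphere (0 : E) 1, (θ, u) ∈ {p : ℝ × E | Φ p.1 p.2 = 0 ∧ q p.2 ≤ 0}}
  have hP : IsClosed P := by
    refine isClosed_proj hK ?_
    exact (isClosed_eq hΦ continuous_const).inter
      (isClosed_le continuous_const (hq.comp continuous_snd))
  have hN : IsClosed N := by
    refine isClosed_proj hK ?_
    exact (isClosed_eq hΦ continuous_const).inter
      (isClosed_le (hq.comp continuous_snd) continuous_const)
  have hmk : ∀ θ u, u ≠ 0 → Φ θ u = 0 → (0 ≤ q u → θ ∈ P) ∧ (q u ≤ 0 → θ ∈ N) := by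
    intro θ u hu h0
    have hn : 0 < ‖u‖ := norm_pos_iff.mpr hu
    have h1 : ‖u‖⁻¹ • u ∈ Metric.sphere (0 : E) 1 := by
      rw [mem_sphere_zero_iff_norm, norm_smul, norm_inv, norm_norm, inv_mul_cancel₀ hn.ne']
    have h2 : Φ θ (‖u‖⁻¹ • u) = 0 := by rw [map_smul, h0, smul_zero]
    have h3 : q (‖u‖⁻¹ • u) = (‖u‖⁻¹) ^ 2 * q u := hq2 _ _
    have h4 : 0 ≤ (‖u‖⁻¹) ^ 2 := sq_nonneg _
    refine ⟨fun h => ⟨_, h1, h2, ?_⟩, fun h => ⟨_, h1, h2, ?_⟩⟩
    · change 0 ≤ q _
      rw [h3]; exact mul_nonneg h4 h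
    · change q _ ≤ 0
      rw [h3]; exact mul_nonpos_of_nonneg_of_nonpos h4 h
  have hex : ∀ θ, ∃ u, u ≠ 0 ∧ Φ θ u = 0 := by
    intro θ
    have h1 := LinearMap.ker_ne_bot_of_finrank_lt (f := Φ θ) hdim
    obtain ⟨u, hu, hu0⟩ := Submodule.exists_mem_ne_zero_of_ne_bot h1
    exact ⟨u, hu0, hu⟩
  have hcov : (univ : Set ℝ) ⊆ P ∪ N := by
    intro θ _
    obtain ⟨u, hu, h0⟩ := hex θ
    rcases le_total 0 (q u) with h | h
    · exact Or.inl ((hmk θ u hu h0).1 h)
    · exact Or.inr ((hmk θ u hu h0).2 h)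
  obtain ⟨u, hu, h0⟩ := hex 0
  have hPN : P.Nonempty ∧ N.Nonempty := by
    have h1 := hτ 0 u h0
    have h2 := hτ0 u hu
    rcases le_total 0 (q u) with h | h
    · exact ⟨⟨_, (hmk _ u hu h0).1 h⟩, ⟨_, (hmk _ _ h2 h1).2 (by rw [hτq]; linarith)⟩⟩
    · exact ⟨⟨_, (hmk _ _ h2 h1).1 (by rw [hτq]; linarith)⟩, ⟨_, (hmk _ u hu h0).2 h⟩⟩
  obtain ⟨θ, -, ⟨v, hv, hv0, hvq⟩, ⟨w, hw, hw0, hwq⟩⟩ :=
    isPreconnected_closed_iff.mp isPreconnected_univ P N hP hN hcov
      (by simpa using hPN.1) (by simpa using hPN.2)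
  simp only at hv0 hvq hw0 hwq
  have hvn : v ≠ 0 := ne_zero_of_mem_unit_sphere ⟨v, hv⟩
  have hwn : w ≠ 0 := ne_zero_of_mem_unit_sphere ⟨w, hw⟩
  have hvq' : 0 < q v := lt_of_le_of_ne hvq (Ne.symm (hno θ v hvn hv0))
  have hwq' : q w < 0 := lt_of_le_of_ne hwq (hno θ w hwn hw0)
  let g : ℝ → ℝ := fun s => q ((1 - s) • v + s • w)
  have hg : Continuous g := by
    refine hq.comp ?_
    fun_prop
  have h1 : (0 : ℝ) ∈ Icc (g 1) (g 0) := by
    constructor
    · simp only [g, sub_self, zero_smul, one_smul, zero_add]; exact hwq'.le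
    · simp only [g, sub_zero, zero_smul, one_smul, add_zero]; exact hvq'.le
  obtain ⟨s, hs, hs0⟩ := intermediate_value_Icc' (zero_le_one) hg.continuousOn h1
  by_cases hz : (1 - s) • v + s • w = 0
  · by_cases hs1 : s = 0
    · rw [hs1] at hz
      simp only [sub_zero, one_smul, zero_smul, add_zero] at hz
      exact hvn hz
    · have h2 : w = (-((1 - s) / s)) • v := by
        have h3 : s • w = -((1 - s) • v) := by
          rw [add_comm] at hz; exact eq_neg_of_add_eq_zero_left hz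
        calc w = s⁻¹ • (s • w) := by rw [smul_smul, inv_mul_cancel₀ hs1, one_smul]
          _ = (-((1 - s) / s)) • v := by
              rw [h3, smul_neg, smul_smul, ← neg_smul]; congr 2; field_simp
      rw [h2, hq2] at hwq'
      have h3 : 0 ≤ (-((1 - s) / s)) ^ 2 * q v := mul_nonneg (sq_nonneg _) hvq
      linarith
  · refine hno θ _ hz ?_ hs0
    rw [map_add, map_smul, map_smul, hv0, hw0, smul_zero, smul_zero, add_zero]

section Plane

variable {V : Type*} [AddCommGroup V] [Module ℝ V]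

/-- the 2-form of two functionals -/
def om (α β : V →ₗ[ℝ] ℝ) (u v : V) : ℝ := α u * β v - α v * β u

/-- a combination of three vectors -/
def cmb (e : Fin 3 → V) (x : Fin 3 → ℝ) : V := x 0 • e 0 + x 1 • e 1 + x 2 • e 2

/-- a combination of pairs -/
def zet (α β : V →ₗ[ℝ] ℝ) (e : Fin 3 → V) (ζ : Fin 3 → ℝ) : ℝ :=
  ζ 0 * om α β (e 1) (e 2) + ζ 1 * om α β (e 2) (e 0) + ζ 2 * om α β (e 0) (e 1)

theorem om_cmb (α β : V →ₗ[ℝ] ℝ) (e : Fin 3 → V) (a b ζ : Fin 3 → ℝ)
    (h0 : ζ 0 = a 1 * b 2 - a 2 * b 1) (h1 : ζ 1 = a 2 * b 0 - a 0 * b 2)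
    (h2 : ζ 2 = a 0 * b 1 - a 1 * b 0) :
    om α β (cmb e a) (cmb e b) = zet α β e ζ := by
  simp only [om, cmb, zet, map_add, map_smul, smul_eq_mul, h0, h1, h2]
  ring

/-- the linear conditions at the angle `θ` -/
noncomputable def Phi {κ : Type*} (α β : κ → V →ₗ[ℝ] ℝ) (e : Fin 3 → V) (f0 f1 : V) (θ : ℝ) :
    (Fin 3 → ℝ) × (Fin 3 → ℝ) →ₗ[ℝ] (κ → ℝ) where
  toFun p i := om (α i) (β i) (cmb e p.1) (Real.cos θ • f0 + Real.sin θ • f1) +
    zet (α i) (β i) e p.2
  map_add' p p' := by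
    ext i
    simp only [om, cmb, zet, map_add, map_smul, smul_eq_mul, Prod.fst_add, Prod.snd_add,
      Pi.add_apply]
    ring
  map_smul' c p := by
    ext i
    simp only [om, cmb, zet, map_add, map_smul, smul_eq_mul, Prod.smul_fst, Prod.smul_snd,
      Pi.smul_apply, RingHom.id_apply]
    ring

theorem continuous_Phi {κ : Type*} [Finite κ] (α β : κ → V →ₗ[ℝ] ℝ) (e : Fin 3 → V) (f0 f1 : V) :
    Continuous fun p : ℝ × ((Fin 3 → ℝ) × (Fin 3 → ℝ)) => Phi α β e f0 f1 p.1 p.2 := by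
  refine continuous_pi fun i => ?_
  simp only [Phi, LinearMap.coe_mk, AddHom.coe_mk, om, cmb, zet, map_add, map_smul, smul_eq_mul]
  fun_prop

/-- the solutions at some angle -/
theorem exists_sol {κ : Type*} [Fintype κ] (hκ : Fintype.card κ = 5) (α β : κ → V →ₗ[ℝ] ℝ)
    (e : Fin 3 → V) (f0 f1 : V) :
    ∃ (θ : ℝ) (x ζ : Fin 3 → ℝ), (x ≠ 0 ∨ ζ ≠ 0) ∧
      x 0 * ζ 0 + x 1 * ζ 1 + x 2 * ζ 2 = 0 ∧
      ∀ i, om (α i) (β i) (cmb e x) (Real.cos θ • f0 + Real.sin θ • f1) +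
        zet (α i) (β i) e ζ = 0 := by
  obtain ⟨θ, ⟨x, ζ⟩, hne, h0, hq⟩ := exists_null (Phi α β e f0 f1) (continuous_Phi α β e f0 f1)
    (by simp [hκ]) (fun p => p.1 0 * p.2 0 + p.1 1 * p.2 1 + p.1 2 * p.2 2) (by fun_prop)
    (fun c u => by
      simp only [Prod.smul_fst, Prod.smul_snd, Pi.smul_apply, smul_eq_mul]; ring)
    (fun p => (-p.1, p.2))
    (fun u hu h => hu (by
      rw [Prod.mk_eq_zero, neg_eq_zero] at h
      exact Prod.ext h.1 h.2))
    (fun u => by simp only [Pi.neg_apply]; ring)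
    (fun θ u h => by
      rw [← h]
      ext i
      simp only [Phi, LinearMap.coe_mk, AddHom.coe_mk, om, cmb, zet, map_add, map_smul,
        smul_eq_mul, Pi.neg_apply, Real.cos_add_pi, Real.sin_add_pi]
      ring)
  refine ⟨θ, x, ζ, ?_, hq, fun i => congrFun h0 i⟩
  by_contra hcon
  push Not at hcon
  exact hne (Prod.ext hcon.1 hcon.2)

/-- two independent vectors, isotropic for all the forms -/
theorem exists_pair {κ : Type*} [Fintype κ] [DecidableEq κ] (hκ : Fintype.card κ = 6)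
    (α β : κ → V →ₗ[ℝ] ℝ) (i0 : κ) (e : Fin 3 → V) (f0 f1 : V)
    (he : ∀ j, α i0 (e j) = 0 ∧ β i0 (e j) = 0)
    (hli : ∀ (x : Fin 3 → ℝ) (a b : ℝ), cmb e x + (a • f0 + b • f1) = 0 → x = 0 ∧ a = 0 ∧ b = 0) :
    ∃ X Y : V, (∀ a b : ℝ, a • X + b • Y = 0 → a = 0 ∧ b = 0) ∧
      ∀ i, om (α i) (β i) X Y = 0 := by
  obtain ⟨θ, x, ζ, hne, hxz, hsol⟩ := exists_sol (κ := {i // i ≠ i0})
    (by rw [Fintype.card_subtype_compl, Fintype.card_subtype_eq, hκ])
    (fun i => α i) (fun i => β i) e f0 f1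
  have hz : ∀ x, α i0 (cmb e x) = 0 ∧ β i0 (cmb e x) = 0 := by
    intro x
    simp only [cmb, map_add, map_smul, (he 0).1, (he 1).1, (he 2).1, (he 0).2, (he 1).2, (he 2).2,
      smul_zero, add_zero, and_self]
  have hcmb : ∀ (a b : ℝ) (x y : Fin 3 → ℝ), a • cmb e x + b • cmb e y =
      cmb e (a • x + b • y) := by
    intro a b x y
    simp only [cmb, Pi.add_apply, Pi.smul_apply, smul_eq_mul, add_smul, smul_add, smul_smul]
    abel
  by_cases hx : x = 0
  · have hζ : ζ ≠ 0 := by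
      rcases hne with h | h
      · exact absurd hx h
      · exact h
    have hsol' : ∀ i : {i // i ≠ i0}, zet (α i) (β i) e ζ = 0 := by
      intro i
      have h1 := hsol i
      rw [hx] at h1
      simpa [cmb, om] using h1
    -- the common conclusion
    have key : ∀ (a b : Fin 3 → ℝ) (c : ℝ), (a 1 * b 2 - a 2 * b 1 = c * ζ 0) →
        (a 2 * b 0 - a 0 * b 2 = c * ζ 1) → (a 0 * b 1 - a 1 * b 0 = c * ζ 2) →
        (∀ s t : ℝ, s • a + t • b = 0 → s = 0 ∧ t = 0) →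
        ∃ X Y : V, (∀ a b : ℝ, a • X + b • Y = 0 → a = 0 ∧ b = 0) ∧
          ∀ i, om (α i) (β i) X Y = 0 := by
      intro a b c h0 h1 h2 hind
      refine ⟨cmb e a, cmb e b, ?_, ?_⟩
      · intro s t hst
        rw [hcmb] at hst
        have h3 := (hli (s • a + t • b) 0 0 (by rw [hst]; simp)).1
        exact hind s t h3
      · intro i
        by_cases hi : i = i0
        · rw [hi, om, (hz a).1, (hz b).1]; ring
        · rw [om_cmb (α i) (β i) e a b (c • ζ) (by simp [h0]) (by simp [h1]) (by simp [h2])]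
          have h3 := hsol' ⟨i, hi⟩
          simp only [zet, Pi.smul_apply, smul_eq_mul] at h3 ⊢
          linear_combination c * h3
    have hcases : ζ 0 ≠ 0 ∨ ζ 1 ≠ 0 ∨ ζ 2 ≠ 0 := by
      by_contra hcon
      push Not at hcon
      refine hζ (funext fun j => ?_)
      fin_cases j
      · exact hcon.1
      · exact hcon.2.1
      · exact hcon.2.2
    rcases hcases with h | h | h
    · refine key ![-ζ 1, ζ 0, 0] ![-ζ 2, 0, ζ 0] (ζ 0) ?_ ?_ ?_ ?_
      · simp
      · simp [mul_comm]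
      · simp
      · intro s t hst
        have h1 := congrFun hst 1
        have h2 := congrFun hst 2
        simp at h1 h2
        exact ⟨h1.resolve_right h, h2.resolve_right h⟩
    · refine key ![0, -ζ 2, ζ 1] ![ζ 1, -ζ 0, 0] (ζ 1) ?_ ?_ ?_ ?_
      · simp
      · simp
      · simp [mul_comm]
      · intro s t hst
        have h1 := congrFun hst 0
        have h2 := congrFun hst 2
        simp at h1 h2
        exact ⟨h2.resolve_right h, h1.resolve_right h⟩
    · refine key ![ζ 2, 0, -ζ 0] ![0, ζ 2, -ζ 1] (ζ 2) ?_ ?_ ?_ ?_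
      · simp [mul_comm]
      · simp
      · simp
      · intro s t hst
        have h1 := congrFun hst 0
        have h2 := congrFun hst 1
        simp at h1 h2
        exact ⟨h1.resolve_right h, h2.resolve_right h⟩
  · have hn : x 0 ^ 2 + x 1 ^ 2 + x 2 ^ 2 ≠ 0 := by
      intro h0
      refine hx (funext fun j => ?_)
      have h1 := sq_nonneg (x 0)
      have h2 := sq_nonneg (x 1)
      have h3 := sq_nonneg (x 2)
      fin_cases j
      · exact pow_eq_zero_iff (two_ne_zero) |>.mp (by simp only [Fin.zero_eta]; linarith)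
      · exact pow_eq_zero_iff (two_ne_zero) |>.mp (by simp only [Fin.mk_one]; linarith)
      · exact pow_eq_zero_iff (two_ne_zero) |>.mp (by
          change (x 2) ^ 2 = 0; linarith)
    set n := x 0 ^ 2 + x 1 ^ 2 + x 2 ^ 2 with hndef
    let z : Fin 3 → ℝ := ![(ζ 1 * x 2 - ζ 2 * x 1) / n, (ζ 2 * x 0 - ζ 0 * x 2) / n,
      (ζ 0 * x 1 - ζ 1 * x 0) / n]
    have z0 : z 0 = (ζ 1 * x 2 - ζ 2 * x 1) / n := rfl
    have z1 : z 1 = (ζ 2 * x 0 - ζ 0 * x 2) / n := rfl
    have z2 : z 2 = (ζ 0 * x 1 - ζ 1 * x 0) / n := rfl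
    refine ⟨cmb e x, (Real.cos θ • f0 + Real.sin θ • f1) + cmb e z, ?_, ?_⟩
    · intro a b hab
      have h1 : cmb e (a • x + b • z) + ((b * Real.cos θ) • f0 + (b * Real.sin θ) • f1) = 0 := by
        rw [← hab, ← hcmb]
        simp only [smul_add, smul_smul]
        abel
      obtain ⟨h2, h3, h4⟩ := hli _ _ _ h1
      have hb : b = 0 := by
        have h5 := Real.sin_sq_add_cos_sq θ
        have h6 : b = (b * Real.sin θ) * Real.sin θ + (b * Real.cos θ) * Real.cos θ := by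
          linear_combination (-b) * h5
        rw [h6, h3, h4]; ring
      refine ⟨?_, hb⟩
      rw [hb, zero_smul, add_zero] at h2
      by_contra ha
      exact hx ((smul_eq_zero.mp h2).resolve_left ha)
    · intro i
      by_cases hi : i = i0
      · rw [hi, om, (hz x).1, (hz x).2]; ring
      · have h1 := hsol ⟨i, hi⟩
        have h2 : om (α i) (β i) (cmb e x) (cmb e z) = zet (α i) (β i) e ζ := by
          refine om_cmb _ _ _ _ _ _ ?_ ?_ ?_
          · rw [z1, z2]; field_simp; rw [hndef]; linear_combination (x 0) * hxz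
          · rw [z0, z2]; field_simp; rw [hndef]; linear_combination (x 1) * hxz
          · rw [z0, z1]; field_simp; rw [hndef]; linear_combination (x 2) * hxz
        have h3 : om (α i) (β i) (cmb e x) ((Real.cos θ • f0 + Real.sin θ • f1) + cmb e z) =
            om (α i) (β i) (cmb e x) (Real.cos θ • f0 + Real.sin θ • f1) +
            om (α i) (β i) (cmb e x) (cmb e z) := by
          simp only [om, map_add]; ring
        rw [h3, h2]
        exact h1

end Plane

end Pool.Agent.H52T
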