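import Mathlib

set_option autoImplicit false

/-! Linear algebra over a field: a large common isotropic subspace for `n` decomposable 2-forms on
an `n`-dimensional space. -/

open Module Submodule

namespace Pool.Agent.H52T

section Perp

variable {k : Type*} [Field k]

/-- a nonzero vector orthogonal to `(a, b)` -/
noncomputable def perp (a b : k) : k × k := by
  classical exact if a = 0 ∧ b = 0 then (1, 0) else (-b, a)

theorem perp_ne (a b : k) : perp a b ≠ 0 := by
  unfold perp
  by_cases h : a = 0 ∧ b = 0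
  · simp [h]
  · rw [if_neg h]
    intro h0
    rw [Prod.mk_eq_zero, neg_eq_zero] at h0
    exact h ⟨h0.2, h0.1⟩

theorem perp_rel (a b : k) : (perp a b).1 * a + (perp a b).2 * b = 0 := by
  unfold perp
  by_cases h : a = 0 ∧ b = 0
  · simp [h]
  · rw [if_neg h]; ring

/-- two vectors with determinant zero have a common orthogonal vector -/
theorem exists_perp (a b a' b' : k) (h : a * b' - a' * b = 0) :
    ∃ t : k × k, t ≠ 0 ∧ t.1 * a + t.2 * b = 0 ∧ t.1 * a' + t.2 * b' = 0 := by
  by_cases h0 : a = 0 ∧ b = 0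
  · refine ⟨perp a' b', perp_ne _ _, ?_, perp_rel _ _⟩
    rw [h0.1, h0.2]; ring
  · refine ⟨(-b, a), ?_, by ring, by linear_combination h⟩
    intro h1
    rw [Prod.mk_eq_zero, neg_eq_zero] at h1
    exact h0 ⟨h1.2, h1.1⟩

end Perp

variable {k V ι : Type*} [Field k] [AddCommGroup V] [Module k V] [Fintype ι] [DecidableEq ι]

/-- `K` satisfies one fixed linear relation at each index, and both functionals vanish on `K` for
the indices in `Q` -/
structure St (α β : ι → V →ₗ[k] k) (K : Submodule k V) (Q : Finset ι) (t : ι → k × k) : Prop where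
  ne : ∀ i, t i ≠ 0
  rel : ∀ i, ∀ v ∈ K, (t i).1 * α i v + (t i).2 * β i v = 0
  zero : ∀ i ∈ Q, ∀ v ∈ K, α i v = 0 ∧ β i v = 0

/-- the conditions on the next vector -/
def cond (α β : ι → V →ₗ[k] k) (Q Q' : Finset ι) (t : ι → k × k) :
    V →ₗ[k] ({i // i ∉ Q} → k) × ({i // i ∈ Q'} → k × k) where
  toFun v := (fun i => (t i).1 * α i v + (t i).2 * β i v, fun i => (α i v, β i v))
  map_add' v w := by
    ext i
    · simp; ring
    · simp
    · simp
  map_smul' c v := by
    ext i
    · simp; ring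
    · simp
    · simp

theorem finrank_ker_cond [FiniteDimensional k V] (α β : ι → V →ₗ[k] k) (Q Q' : Finset ι)
    (t : ι → k × k) (hdim : Fintype.card ι ≤ finrank k V) :
    Q.card ≤ finrank k (LinearMap.ker (cond α β Q Q' t)) + 2 * Q'.card := by
  have h1 := LinearMap.finrank_range_add_finrank_ker (cond α β Q Q' t)
  have h2 : finrank k (LinearMap.range (cond α β Q Q' t)) ≤
      finrank k (({i // i ∉ Q} → k) × ({i // i ∈ Q'} → k × k)) := Submodule.finrank_le _
  have h3 : finrank k (({i // i ∉ Q} → k) × ({i // i ∈ Q'} → k × k)) =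
      (Fintype.card ι - Q.card) + Q'.card * 2 := by
    rw [Module.finrank_prod, Module.finrank_pi, Module.finrank_pi_fintype]
    simp only [Module.finrank_prod, Module.finrank_self, Finset.sum_const, Finset.card_univ,
      smul_eq_mul]
    congr 1
    · rw [Fintype.card_subtype_compl, Fintype.card_coe]
    · rw [Fintype.card_coe]
  have h4 : Q.card ≤ Fintype.card ι := Finset.card_le_univ _
  omega

theorem mem_ker_cond {α β : ι → V →ₗ[k] k} {Q Q' : Finset ι} {t : ι → k × k} {v : V} :
    v ∈ LinearMap.ker (cond α β Q Q' t) ↔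
      (∀ i ∉ Q, (t i).1 * α i v + (t i).2 * β i v = 0) ∧
      (∀ i ∈ Q', α i v = 0 ∧ β i v = 0) := by
  rw [LinearMap.mem_ker]
  constructor
  · intro h
    refine ⟨fun i hi => ?_, fun i hi => ?_⟩
    · exact congrFun (congrArg Prod.fst h) ⟨i, hi⟩
    · have h1 := congrFun (congrArg Prod.snd h) ⟨i, hi⟩
      exact ⟨congrArg Prod.fst h1, congrArg Prod.snd h1⟩
  · rintro ⟨h1, h2⟩
    refine Prod.ext ?_ ?_
    · funext i
      exact h1 i i.2
    · funext i
      exact Prod.ext (h2 i i.2).1 (h2 i i.2).2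

theorem finrank_sup_singleton [FiniteDimensional k V] (K : Submodule k V) {v : V} (hv : v ∉ K) :
    finrank k ↥(K ⊔ span k {v}) = finrank k K + 1 := by
  have h1 := Submodule.finrank_sup_add_finrank_inf_eq K (span k {v})
  have hv0 : v ≠ 0 := fun h => hv (h ▸ K.zero_mem)
  have h2 : K ⊓ span k {v} = ⊥ := by
    rw [eq_bot_iff]
    rintro w ⟨hw1, hw2⟩
    obtain ⟨c, rfl⟩ := mem_span_singleton.mp hw2
    by_cases hc : c = 0
    · simp [hc]
    · exfalso
      refine hv ?_
      have := K.smul_mem c⁻¹ hw1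
      rwa [smul_smul, inv_mul_cancel₀ hc, one_smul] at this
  rw [h2, finrank_bot, add_zero, finrank_span_singleton hv0] at h1
  exact h1

theorem step [FiniteDimensional k V] {α β : ι → V →ₗ[k] k} {K : Submodule k V} {Q : Finset ι}
    {t : ι → k × k} (h : St α β K Q t) {r : ℕ} (hdim : Fintype.card ι ≤ finrank k V)
    (hr : 2 * r + finrank k K + 1 ≤ Q.card) :
    ∃ K' Q' t', St α β K' Q' t' ∧ finrank k K' = finrank k K + 1 ∧ Q'.card = r := by
  obtain ⟨Q', hQ', hc⟩ := Finset.exists_subset_card_eq (s := Q) (n := r) (by omega)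
  have h1 := finrank_ker_cond α β Q Q' t hdim
  have hle : K ≤ LinearMap.ker (cond α β Q Q' t) := by
    intro v hv
    exact mem_ker_cond.mpr ⟨fun i _ => h.rel i v hv, fun i hi => h.zero i (hQ' hi) v hv⟩
  have hlt : K < LinearMap.ker (cond α β Q Q' t) := by
    refine lt_of_le_of_ne hle ?_
    intro he
    rw [← he] at h1
    omega
  obtain ⟨v, hv, hvK⟩ := SetLike.exists_of_lt hlt
  obtain ⟨hv1, hv2⟩ := mem_ker_cond.mp hv
  let t' : ι → k × k := fun i => if i ∈ Q then perp (α i v) (β i v) else t i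
  refine ⟨K ⊔ span k {v}, Q', t', ⟨?_, ?_, ?_⟩, finrank_sup_singleton K hvK, hc⟩
  · intro i
    by_cases hi : i ∈ Q
    · simp only [t', hi, if_true]; exact perp_ne _ _
    · simp only [t', hi, if_false]; exact h.ne i
  · intro i w hw
    obtain ⟨w1, hw1, w2, hw2, rfl⟩ := Submodule.mem_sup.mp hw
    obtain ⟨c, rfl⟩ := mem_span_singleton.mp hw2
    simp only [map_add, map_smul, smul_eq_mul]
    by_cases hi : i ∈ Q
    · obtain ⟨h3, h4⟩ := h.zero i hi w1 hw1
      have h5 := perp_rel (α i v) (β i v)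
      simp only [t', hi, if_true]
      rw [h3, h4]
      linear_combination c * h5
    · have h3 := h.rel i w1 hw1
      have h4 := hv1 i hi
      simp only [t', hi, if_false]
      linear_combination h3 + c * h4
  · intro i hi w hw
    obtain ⟨w1, hw1, w2, hw2, rfl⟩ := Submodule.mem_sup.mp hw
    obtain ⟨c, rfl⟩ := mem_span_singleton.mp hw2
    obtain ⟨h3, h4⟩ := h.zero i (hQ' hi) w1 hw1
    obtain ⟨h5, h6⟩ := hv2 i hi
    simp only [map_add, map_smul, h3, h4, h5, h6, smul_zero, add_zero, and_self]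

/-- number of undetermined indices needed for `m` further vectors after `a` of them -/
def rho : ℕ → ℕ → ℕ
  | _, 0 => 0
  | a, m + 1 => 2 * rho (a + 1) m + a + 1

theorem rho_eq (a m : ℕ) : rho a m + a + 2 ^ m = (a + m) * 2 ^ m + 1 := by
  induction m generalizing a with
  | zero => simp [rho]
  | succ m ih =>
    have h := ih (a + 1)
    simp only [rho]
    have h2 : (a + (m + 1)) * 2 ^ (m + 1) = 2 * ((a + 1 + m) * 2 ^ m) := by ring
    have h3 : 2 ^ (m + 1) = 2 * 2 ^ m := by ring
    rw [h2, h3]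
    omega

theorem steps [FiniteDimensional k V] {α β : ι → V →ₗ[k] k} (hdim : Fintype.card ι ≤ finrank k V)
    (m : ℕ) : ∀ {K : Submodule k V} {Q : Finset ι} {t : ι → k × k}, St α β K Q t →
      rho (finrank k K) m ≤ Q.card →
      ∃ K' Q' t', St α β K' Q' t' ∧ finrank k K' = finrank k K + m := by
  induction m with
  | zero =>
    intro K Q t h _
    exact ⟨K, Q, t, h, rfl⟩
  | succ m ih =>
    intro K Q t h hr
    simp only [rho] at hr
    obtain ⟨K', Q', t', h', h1, h2⟩ := step h (r := rho (finrank k K + 1) m) hdim (by omega)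
    obtain ⟨K'', Q'', t'', h'', h3⟩ := ih h' (by rw [h1, h2])
    exact ⟨K'', Q'', t'', h'', by omega⟩

theorem st_bot (α β : ι → V →ₗ[k] k) : St α β ⊥ Finset.univ (fun _ => (1, 0)) := by
  refine ⟨fun i => by simp, ?_, ?_⟩
  · intro i v hv
    rw [Submodule.mem_bot] at hv
    simp [hv]
  · intro i _ v hv
    rw [Submodule.mem_bot] at hv
    simp [hv]

/-- a `c`-dimensional space with one fixed relation at each index -/
theorem exists_space [FiniteDimensional k V] (α β : ι → V →ₗ[k] k)
    (hdim : Fintype.card ι ≤ finrank k V) (c : ℕ) (hc : c * 2 ^ c + 1 ≤ Fintype.card ι + 2 ^ c) :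
    ∃ (K : Submodule k V) (t : ι → k × k), finrank k K = c ∧ (∀ i, t i ≠ 0) ∧
      ∀ i, ∀ v ∈ K, (t i).1 * α i v + (t i).2 * β i v = 0 := by
  obtain ⟨K, Q, t, h, h1⟩ := steps hdim c (st_bot α β) (by
    have := rho_eq 0 c
    rw [finrank_bot, Finset.card_univ]
    simp only [zero_add, add_zero] at this
    omega)
  refine ⟨K, t, ?_, h.ne, h.rel⟩
  rw [h1, finrank_bot, zero_add]

end Pool.Agent.H52T
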