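import Pool.Agent.H52T.Circle

set_option autoImplicit false

/-! A three-dimensional common isotropic space for `n ≥ 13` decomposable 2-forms in dimension `n`
over the reals. -/

open Module Submodule Set Topology

namespace Pool.Agent.H52T

theorem exists_pair' {V : Type*} [AddCommGroup V] [Module ℝ V] [FiniteDimensional ℝ V]
    (hV : 5 ≤ finrank ℝ V) {κ : Type*} [Fintype κ] [DecidableEq κ] (hκ : Fintype.card κ = 6)
    (α β : κ → V →ₗ[ℝ] ℝ) :
    ∃ X Y : V, (∀ a b : ℝ, a • X + b • Y = 0 → a = 0 ∧ b = 0) ∧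
      ∀ i, om (α i) (β i) X Y = 0 := by
  have hne : Nonempty κ := Fintype.card_pos_iff.mp (by omega)
  obtain ⟨i0⟩ := hne
  let ψ : V →ₗ[ℝ] ℝ × ℝ := (α i0).prod (β i0)
  have hZ : 3 ≤ finrank ℝ (LinearMap.ker ψ) := by
    have h1 := LinearMap.finrank_range_add_finrank_ker ψ
    have h2 : finrank ℝ (LinearMap.range ψ) ≤ finrank ℝ (ℝ × ℝ) := Submodule.finrank_le _
    have h3 : finrank ℝ (ℝ × ℝ) = 2 := by simp
    omega
  let b := Module.finBasis ℝ (LinearMap.ker ψ)
  let e : Fin 3 → V := fun j => (b (Fin.castLE hZ j) : V)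
  have he : LinearIndependent ℝ e := by
    have h1 : LinearIndependent ℝ (fun j : Fin 3 => b (Fin.castLE hZ j)) :=
      b.linearIndependent.comp _ (Fin.castLE_injective hZ)
    exact h1.map' (LinearMap.ker ψ).subtype (Submodule.ker_subtype _)
  have hez : ∀ j, α i0 (e j) = 0 ∧ β i0 (e j) = 0 := by
    intro j
    have h1 : ψ (e j) = 0 := (b (Fin.castLE hZ j)).2
    exact ⟨congrArg Prod.fst h1, congrArg Prod.snd h1⟩
  let S : Submodule ℝ V := span ℝ (Set.range e)
  have hS : finrank ℝ S = 3 := by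
    simpa using finrank_span_eq_card he
  have hcm : ∀ x, cmb e x ∈ S := by
    intro x
    have h1 : ∀ j, e j ∈ S := fun j => subset_span ⟨j, rfl⟩
    exact S.add_mem (S.add_mem (S.smul_mem _ (h1 0)) (S.smul_mem _ (h1 1))) (S.smul_mem _ (h1 2))
  obtain ⟨f0, hf0⟩ : ∃ f0, f0 ∉ S := by
    by_contra h
    push Not at h
    have h1 : S = ⊤ := eq_top_iff.mpr fun v _ => h v
    rw [h1, finrank_top] at hS
    omega
  have hS' := finrank_sup_singleton S hf0
  obtain ⟨f1, hf1⟩ : ∃ f1, f1 ∉ S ⊔ span ℝ {f0} := by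
    by_contra h
    push Not at h
    have h1 : S ⊔ span ℝ {f0} = ⊤ := eq_top_iff.mpr fun v _ => h v
    rw [h1, finrank_top] at hS'
    omega
  refine exists_pair hκ α β i0 e f0 f1 hez ?_
  intro x a c h
  have hc : c = 0 := by
    by_contra hc
    refine hf1 ?_
    have h1 : f1 = (-c⁻¹) • (cmb e x + a • f0) := by
      have h2 : c • f1 = -(cmb e x + a • f0) := by
        rw [← add_assoc] at h
        exact eq_neg_of_add_eq_zero_right h
      calc f1 = c⁻¹ • (c • f1) := by rw [smul_smul, inv_mul_cancel₀ hc, one_smul]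
        _ = _ := by rw [h2, smul_neg, neg_smul]
    rw [h1]
    refine Submodule.smul_mem _ _ (Submodule.add_mem _ ?_ ?_)
    · exact Submodule.mem_sup_left (hcm x)
    · exact Submodule.mem_sup_right (Submodule.smul_mem _ _ (mem_span_singleton_self f0))
  rw [hc, zero_smul, add_zero] at h
  have ha : a = 0 := by
    by_contra ha
    refine hf0 ?_
    have h1 : f0 = (-a⁻¹) • cmb e x := by
      have h2 : a • f0 = -(cmb e x) := eq_neg_of_add_eq_zero_right h
      calc f0 = a⁻¹ • (a • f0) := by rw [smul_smul, inv_mul_cancel₀ ha, one_smul]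
        _ = _ := by rw [h2, smul_neg, neg_smul]
    rw [h1]
    exact S.smul_mem _ (hcm x)
  rw [ha, zero_smul, add_zero] at h
  refine ⟨?_, ha, hc⟩
  have h1 := Fintype.linearIndependent_iff.mp he x (by rw [Fin.sum_univ_three]; exact h)
  exact funext h1

theorem exists_space3 {V ι : Type*} [AddCommGroup V] [Module ℝ V] [FiniteDimensional ℝ V]
    [Fintype ι] [DecidableEq ι] (α β : ι → V →ₗ[ℝ] ℝ) (hdim : Fintype.card ι ≤ finrank ℝ V)
    (hc : 13 ≤ Fintype.card ι) :
    ∃ (K : Submodule ℝ V) (t : ι → ℝ × ℝ), finrank ℝ K = 3 ∧ (∀ i, t i ≠ 0) ∧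
      ∀ i, ∀ v ∈ K, (t i).1 * α i v + (t i).2 * β i v = 0 := by
  classical
  obtain ⟨K, Q, t, h, hK, hQ⟩ := step (st_bot α β) (r := 6) hdim (by
    rw [finrank_bot, Finset.card_univ]; omega)
  rw [finrank_bot, zero_add] at hK
  let N : Submodule ℝ V := LinearMap.ker (cond α β Q ∅ t)
  have hN : 6 ≤ finrank ℝ N := by
    have := finrank_ker_cond α β Q ∅ t hdim
    rw [hQ, Finset.card_empty] at this
    exact this
  have hKN : K ≤ N := by
    intro v hv
    exact mem_ker_cond.mpr ⟨fun i _ => h.rel i v hv, fun i hi => by simp at hi⟩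
  let K' : Submodule ℝ N := K.comap N.subtype
  have hK' : finrank ℝ K' = 1 := by
    rw [← hK]
    exact (Submodule.comapSubtypeEquivOfLe hKN).finrank_eq
  have hq : 5 ≤ finrank ℝ (N ⧸ K') := by
    have := Submodule.finrank_quotient_add_finrank K'
    omega
  have hker : ∀ (i : {i // i ∈ Q}), K' ≤ LinearMap.ker ((α i).comp N.subtype) ∧
      K' ≤ LinearMap.ker ((β i).comp N.subtype) := by
    intro i
    constructor
    · intro v hv
      exact (h.zero i i.2 v hv).1
    · intro v hv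
      exact (h.zero i i.2 v hv).2
  obtain ⟨X', Y', hind, hom⟩ := exists_pair' hq (κ := {i // i ∈ Q})
    (by rw [Fintype.card_coe, hQ])
    (fun i => K'.liftQ ((α i).comp N.subtype) (hker i).1)
    (fun i => K'.liftQ ((β i).comp N.subtype) (hker i).2)
  obtain ⟨X, rfl⟩ := K'.mkQ_surjective X'
  obtain ⟨Y, rfl⟩ := K'.mkQ_surjective Y'
  have hX : (X : V) ∉ K := by
    intro hX
    have h1 : K'.mkQ X = 0 := by
      rw [Submodule.mkQ_apply, Submodule.Quotient.mk_eq_zero]
      exact hX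
    have h2 := hind 1 0 (by rw [h1]; simp)
    exact one_ne_zero h2.1
  have hY : (Y : V) ∉ K ⊔ span ℝ {(X : V)} := by
    intro hY
    obtain ⟨w, hw, u, hu, hwu⟩ := Submodule.mem_sup.mp hY
    obtain ⟨c, rfl⟩ := mem_span_singleton.mp hu
    have h1 : K'.mkQ (Y - c • X) = 0 := by
      rw [Submodule.mkQ_apply, Submodule.Quotient.mk_eq_zero]
      change ((Y - c • X : N) : V) ∈ K
      have : ((Y - c • X : N) : V) = w := by
        rw [Submodule.coe_sub, Submodule.coe_smul, ← hwu]; abel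
      rw [this]; exact hw
    have h2 := hind (-c) 1 (by
      rw [map_sub, map_smul] at h1
      rw [one_smul, neg_smul, ← sub_eq_neg_add]
      exact h1)
    exact one_ne_zero h2.2
  have hXN := (mem_ker_cond.mp X.2).1
  have hYN := (mem_ker_cond.mp Y.2).1
  have hpe : ∀ i : {i // i ∈ Q}, ∃ s : ℝ × ℝ, s ≠ 0 ∧ s.1 * α i X + s.2 * β i X = 0 ∧
      s.1 * α i Y + s.2 * β i Y = 0 := by
    intro i
    have h1 : om ((α i).comp N.subtype) ((β i).comp N.subtype) X Y = 0 := hom i
    exact exists_perp _ _ _ _ h1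
  choose s hs0 hsX hsY using hpe
  let t' : ι → ℝ × ℝ := fun i => if hi : i ∈ Q then s ⟨i, hi⟩ else t i
  refine ⟨K ⊔ span ℝ {(X : V)} ⊔ span ℝ {(Y : V)}, t', ?_, ?_, ?_⟩
  · rw [finrank_sup_singleton _ hY, finrank_sup_singleton _ hX, hK]
  · intro i
    by_cases hi : i ∈ Q
    · simp only [t', hi, dif_pos]; exact hs0 _
    · simp only [t', hi, dif_neg, not_false_iff]; exact h.ne i
  · intro i w hw
    obtain ⟨w1, hw1, w2, hw2, rfl⟩ := Submodule.mem_sup.mp hw
    obtain ⟨c2, rfl⟩ := mem_span_singleton.mp hw2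
    obtain ⟨w3, hw3, w4, hw4, rfl⟩ := Submodule.mem_sup.mp hw1
    obtain ⟨c4, rfl⟩ := mem_span_singleton.mp hw4
    simp only [map_add, map_smul, smul_eq_mul]
    by_cases hi : i ∈ Q
    · obtain ⟨h3, h4⟩ := h.zero i hi w3 hw3
      have h5 := hsX ⟨i, hi⟩
      have h6 := hsY ⟨i, hi⟩
      simp only [t', hi, dif_pos]
      simp only at h5 h6
      rw [h3, h4]
      linear_combination c4 * h5 + c2 * h6
    · have h3 := h.rel i w3 hw3
      have h5 := hXN i hi
      have h6 := hYN i hi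
      simp only [t', hi, dif_neg, not_false_iff]
      linear_combination h3 + c4 * h5 + c2 * h6

end Pool.Agent.H52T
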