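import Pool.Agent.H52T.Three
import Pool.Agent.H42.TR.High

set_option autoImplicit false

/-! Bounds for the typical ranks of the pattern with free diagonal. -/

open Module Submodule Set Topology Filter

namespace Pool.Agent.H52T

open Pool.Agent.H42.TR

section Forced

variable {ι : Type*} [Fintype ι] [DecidableEq ι]

/-- the second functional at the index `i` -/
noncomputable def bet (A : Matrix ι ι ℝ) (i : ι) : (ι → ℝ) →ₗ[ℝ] ℝ :=
  (LinearMap.proj i).comp A.mulVecLin

theorem mem_Bad_of_space (A : Matrix ι ι ℝ) (c : ℕ)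
    (h : ∃ (K : Submodule ℝ (ι → ℝ)) (t : ι → ℝ × ℝ), finrank ℝ K = c ∧ (∀ i, t i ≠ 0) ∧
      ∀ i, ∀ v ∈ K, (t i).1 * (LinearMap.proj i : (ι → ℝ) →ₗ[ℝ] ℝ) v + (t i).2 * bet A i v = 0) :
    A ∈ Bad (circ ι) c := by
  obtain ⟨K, t, hK, ht, hrel⟩ := h
  let w : ι → ℂ := fun i => ⟨(t i).1, (t i).2⟩
  have hw : ∀ i, w i ≠ 0 := by
    intro i h0
    refine ht i (Prod.ext ?_ ?_)
    · exact congrArg Complex.re h0
    · exact congrArg Complex.im h0
  refine mem_Bad.mpr ⟨fun i => ((‖w i‖⁻¹ : ℝ) : ℂ) * w i, ?_, ?_⟩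
  · intro i
    rw [norm_mul, Complex.norm_real, norm_inv, norm_norm]
    exact inv_mul_cancel₀ (norm_pos_iff.mpr (hw i)).ne'
  · set B := Bm A fun i => ((‖w i‖⁻¹ : ℝ) : ℂ) * w i with hB
    have h1 := LinearMap.finrank_range_add_finrank_ker B.mulVecLin
    have h2 : K ≤ LinearMap.ker B.mulVecLin := by
      intro v hv
      rw [LinearMap.mem_ker]
      ext i
      have h3 := hrel i v hv
      simp only [bet, LinearMap.coe_comp, Function.comp_apply, LinearMap.proj_apply,
        Matrix.mulVecLin_apply] at h3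
      rw [Matrix.mulVecLin_apply, hB]
      simp only [Bm, Matrix.add_mulVec, ← Matrix.mulVec_mulVec, Matrix.mulVec_diagonal,
        Pi.add_apply, Pi.zero_apply, Complex.re_ofReal_mul, Complex.im_ofReal_mul]
      have h4 : (w i).re = (t i).1 := rfl
      have h5 : (w i).im = (t i).2 := rfl
      rw [h4, h5]
      linear_combination (‖w i‖⁻¹) * h3
    have h3 := Submodule.finrank_mono h2
    rw [hK] at h3
    have h4 : finrank ℝ (LinearMap.range B.mulVecLin) = B.rank := rfl
    rw [h4, Module.finrank_pi] at h1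
    omega

/-- a matrix with large corank at some point of the product of circles is a limit of matrices of
small completion rank -/
theorem exists_near {A : Matrix ι ι ℝ} {c : ℕ} (hA : A ∈ Bad (circ ι) c)
    {U : Set (Matrix ι ι ℝ)} (hU : U ∈ 𝓝 A) : ∃ B ∈ U, crank B + c ≤ Fintype.card ι := by
  classical
  obtain ⟨z, hz, hr⟩ := mem_Bad.mp hA
  let J : Finset ι := Finset.univ.filter fun i => (z i).im ≠ 0
  have hpos : ∀ i : J, 0 < |(z i).im| := by
    intro i
    have := i.2
    simp only [J, Finset.mem_filter, Finset.mem_univ, true_and] at this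
    exact abs_pos.mpr this
  have hN : ∃ N : ℕ, ∀ i : J, 1 / ((N : ℝ) + 1) ≤ |(z i).im| := by
    choose f hf using fun i : J => exists_nat_one_div_lt (hpos i)
    refine ⟨∑ i, f i, fun i => ?_⟩
    have h1 : f i ≤ ∑ i, f i := Finset.single_le_sum (fun _ _ => Nat.zero_le _) (Finset.mem_univ i)
    have h2 : (f i : ℝ) ≤ ((∑ i, f i : ℕ) : ℝ) := by exact_mod_cast h1
    refine le_trans ?_ (hf i).le
    exact one_div_le_one_div_of_le (by positivity) (by linarith)
  obtain ⟨N, hN⟩ := hN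
  have hzt : z ∈ typ J N := by
    refine ⟨hz, fun i => ⟨fun hi => hN ⟨i, hi⟩, fun hi => ?_⟩⟩
    by_contra hne0
    exact hi (by simp only [J, Finset.mem_filter, Finset.mem_univ, true_and]; exact hne0)
  let E : Matrix ι ι ℝ := Matrix.diagonal (fun i => if i ∈ J then (0 : ℝ) else 1)
  let φ : ℝ → Matrix ι ι ℝ := fun ε => 1 - ε • (A * E)
  have hφ : Continuous φ := continuous_const.sub (continuous_id.smul continuous_const)
  have hdet : Continuous fun ε => (φ ε).det := hφ.matrix_det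
  have h0 : φ 0 = 1 := by simp [φ]
  let ψ : ℝ → Matrix ι ι ℝ := fun ε => (((φ ε).det)⁻¹ • (φ ε).adjugate) * A
  have hψ : ContinuousAt ψ 0 := by
    have h1 : ContinuousAt (fun ε => ((φ ε).det)⁻¹) 0 := by
      refine hdet.continuousAt.inv₀ ?_
      rw [h0, Matrix.det_one]; exact one_ne_zero
    have h2 : ContinuousAt (fun ε => (φ ε).adjugate) 0 :=
      (hφ.matrix_adjugate).continuousAt
    have h3 : ContinuousAt (fun ε => ((φ ε).det)⁻¹ • (φ ε).adjugate) 0 := h1.smul h2
    have h4 : Continuous fun X : Matrix ι ι ℝ => X * A := continuous_id.matrix_mul continuous_const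
    exact h4.continuousAt.comp h3
  have hψ0 : ψ 0 = A := by simp [ψ, h0]
  have h1 : ∀ᶠ ε in 𝓝 (0 : ℝ), ψ ε ∈ U := hψ.eventually (by rw [hψ0]; exact hU)
  have h2 : ∀ᶠ ε in 𝓝 (0 : ℝ), (φ ε).det ≠ 0 :=
    hdet.continuousAt.eventually_ne (by rw [h0, Matrix.det_one]; exact one_ne_zero)
  have h3 : ∃ᶠ ε in 𝓝 (0 : ℝ), ε ≠ 0 := by
    have : (𝓝[≠] (0 : ℝ)).NeBot := inferInstance
    exact frequently_iff_neBot.mpr this
  obtain ⟨ε, hε, h4, h5⟩ := (h3.and_eventually (h1.and h2)).exists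
  have h6 : φ ε * ψ ε = A := by
    change φ ε * ((((φ ε).det)⁻¹ • (φ ε).adjugate) * A) = A
    rw [← Matrix.mul_assoc, Matrix.mul_smul, Matrix.mul_adjugate, smul_smul, inv_mul_cancel₀ h5,
      one_smul, Matrix.one_mul]
  have h7 : A * (1 + ε • (E * ψ ε)) = ψ ε := by
    have h8 : φ ε * ψ ε = ψ ε - ε • (A * E * ψ ε) := by
      simp only [φ]
      rw [Matrix.sub_mul, Matrix.one_mul, Matrix.smul_mul]
    rw [h8] at h6
    rw [Matrix.mul_add, Matrix.mul_one, Matrix.mul_smul, ← Matrix.mul_assoc]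
    rw [sub_eq_iff_eq_add] at h6
    exact h6.symm
  refine ⟨ψ ε, h4, ?_⟩
  have h8 := crank_le_of_typ (A := ψ ε) (A' := A) hzt hε h7
  omega

theorem typical_upper {r c : ℕ} (hc : ∀ A : Matrix ι ι ℝ, A ∈ Bad (circ ι) c)
    (h : (interior {A : Matrix ι ι ℝ | crank A = r}).Nonempty) : r + c ≤ Fintype.card ι := by
  obtain ⟨A, hA⟩ := h
  obtain ⟨B, hB, h1⟩ := exists_near (hc A) (isOpen_interior.mem_nhds hA)
  have h2 : crank B = r := interior_subset (s := {A : Matrix ι ι ℝ | crank A = r}) hB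
  omega

theorem forced_general (c : ℕ) (hc : (c - 1) * 2 ^ c < Fintype.card ι) (A : Matrix ι ι ℝ) :
    A ∈ Bad (circ ι) c := by
  refine mem_Bad_of_space A c (exists_space _ _ (by rw [Module.finrank_pi]) c ?_)
  rcases Nat.eq_zero_or_pos c with h0 | h0
  · rw [h0]; omega
  · have h1 : c * 2 ^ c = (c - 1) * 2 ^ c + 2 ^ c := by
      obtain ⟨d, rfl⟩ : ∃ d, c = d + 1 := ⟨c - 1, by omega⟩
      rw [Nat.add_sub_cancel]; ring
    omega

theorem forced_three (hc : 13 ≤ Fintype.card ι) (A : Matrix ι ι ℝ) : A ∈ Bad (circ ι) 3 :=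
  mem_Bad_of_space A 3 (exists_space3 _ _ (by rw [Module.finrank_pi]) hc)

end Forced

section Lower

/-- parametrisation of the matrices of completion rank at most `r` -/
def Gp {n r c : ℕ} (e : Fin r ⊕ Fin c ≃ Fin n) :
    ((Fin n → ℝ) × (Fin r → Fin n → ℝ) × (Fin c → Fin r → ℝ)) → Fin n → Fin n → ℝ :=
  fun p j k => Sum.elim (fun i => p.2.1 i k) (fun l => ∑ i, p.2.2 l i * p.2.1 i k) (e.symm j) -
    (if j = k then p.1 j else 0)

theorem contDiff_Gp {n r c : ℕ} (e : Fin r ⊕ Fin c ≃ Fin n) : ContDiff ℝ 1 (Gp e) := by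
  refine contDiff_pi.mpr fun j => contDiff_pi.mpr fun k => ?_
  unfold Gp
  refine ContDiff.sub ?_ ?_
  · rcases e.symm j with i | l
    · simp only [Sum.elim_inl]
      fun_prop
    · simp only [Sum.elim_inr]
      refine ContDiff.sum fun i _ => ContDiff.mul ?_ ?_ <;> fun_prop
  · by_cases h : j = k
    · simp only [h, if_true]; fun_prop
    · simp only [h, if_false]; exact contDiff_const

theorem mem_range_Gp {n r c : ℕ} (hrc : r + c = n) (A : Matrix (Fin n) (Fin n) ℝ)
    (h : crank A ≤ r) : ∃ e : Fin r ⊕ Fin c ≃ Fin n, (A : Fin n → Fin n → ℝ) ∈ Set.range (Gp e) := by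
  obtain ⟨d, hd⟩ := exists_crank A
  obtain ⟨e, P, hP⟩ := exists_rows hrc (A + Matrix.diagonal d) (by rw [hd]; exact h)
  refine ⟨e, ⟨d, fun i k => (A + Matrix.diagonal d) (e (Sum.inl i)) k, P⟩, ?_⟩
  funext j k
  have h1 : Sum.elim (fun i => (A + Matrix.diagonal d) (e (Sum.inl i)) k)
      (fun l => ∑ i, P l i * (A + Matrix.diagonal d) (e (Sum.inl i)) k) (e.symm j) =
      (A + Matrix.diagonal d) j k := by
    obtain ⟨s, rfl⟩ := e.surjective j
    rw [Equiv.symm_apply_apply]
    rcases s with i | l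
    · rfl
    · rw [Sum.elim_inr, ← hP l k]
  simp only [Gp]
  rw [h1, Matrix.add_apply, Matrix.diagonal_apply]
  ring

theorem typical_lower {n r : ℕ}
    (h : (interior {A : Matrix (Fin n) (Fin n) ℝ | crank A = r}).Nonempty) :
    (n - r) * (n - r) ≤ n := by
  classical
  by_contra hlt
  rw [not_le] at hlt
  have hrn : r ≤ n := by
    by_contra hr
    have : n - r = 0 := by omega
    rw [this] at hlt
    omega
  obtain ⟨c, hc⟩ : ∃ c, r + c = n := ⟨n - r, by omega⟩
  have hcn : n - r = c := by omega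
  rw [hcn] at hlt
  let S : Set (Fin n → Fin n → ℝ) := ⋃ e : Fin r ⊕ Fin c ≃ Fin n, Set.range (Gp e)
  have hdim : dimH S < (finrank ℝ (Fin n → Fin n → ℝ) : ENNReal) := by
    have h1 : dimH S ≤ (finrank ℝ ((Fin n → ℝ) × (Fin r → Fin n → ℝ) × (Fin c → Fin r → ℝ)) :
          ENNReal) := by
      simp only [S]
      rw [dimH_iUnion]
      exact iSup_le fun e => (contDiff_Gp e).dimH_range_le
    refine lt_of_le_of_lt h1 ?_
    rw [Nat.cast_lt]
    have h2 : finrank ℝ (Fin n → Fin n → ℝ) = n * n := by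
      rw [Module.finrank_pi_fintype]
      simp only [Module.finrank_pi_fintype, Finset.sum_const, Module.finrank_self,
        Finset.card_univ, Fintype.card_fin, smul_eq_mul, mul_one]
    have h3 : finrank ℝ ((Fin n → ℝ) × (Fin r → Fin n → ℝ) × (Fin c → Fin r → ℝ)) =
        n + (r * n + c * r) := by
      simp only [Module.finrank_prod, Module.finrank_pi_fintype, Finset.sum_const,
        Finset.card_univ, Fintype.card_fin, smul_eq_mul, Module.finrank_self, mul_one]
    rw [h2, h3]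
    have h4 : r * n + c * r + c * c = n * n := by
      rw [← hc]; ring
    omega
  have hdense : Dense Sᶜ := dense_compl_of_dimH_lt_finrank hdim
  obtain ⟨A, hA, hAS⟩ := hdense.inter_open_nonempty
    (interior {A : Matrix (Fin n) (Fin n) ℝ | crank A = r}) isOpen_interior h
  have h5 : crank (A : Matrix (Fin n) (Fin n) ℝ) = r :=
    interior_subset (s := {A : Matrix (Fin n) (Fin n) ℝ | crank A = r}) hA
  obtain ⟨e, he⟩ := mem_range_Gp hc A h5.le
  exact hAS (Set.mem_iUnion.mpr ⟨e, he⟩)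

end Lower

/-- the count -/
theorem count {n c : ℕ} (hforced : ∀ A : Matrix (Fin n) (Fin n) ℝ, A ∈ Bad (circ (Fin n)) c)
    (S : Finset ℕ)
    (hS : ∀ r ∈ S, (interior {A : Matrix (Fin n) (Fin n) ℝ | crank A = r}).Nonempty) :
    (∀ r ∈ S, r + c ≤ n) ∧ S.card + c ≤ Nat.sqrt n + 1 := by
  have h1 : ∀ r ∈ S, r + c ≤ n := by
    intro r hr
    have := typical_upper hforced (hS r hr)
    rwa [Fintype.card_fin] at this
  have h2 : ∀ r ∈ S, n - r ≤ Nat.sqrt n := fun r hr =>
    Nat.le_sqrt.mpr (typical_lower (hS r hr))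
  refine ⟨h1, ?_⟩
  have hcs : c ≤ Nat.sqrt n + 1 := by
    -- some typical rank exists
    obtain ⟨r, A, -, hA⟩ := exists_const (ι := Fin n) Set.univ isOpen_univ ⟨0, trivial⟩
    have h3 := typical_upper hforced ⟨A, hA⟩
    rw [Fintype.card_fin] at h3
    have h4 := Nat.le_sqrt.mpr (typical_lower ⟨A, hA⟩)
    omega
  have h3 : S.card ≤ (Finset.Icc c (Nat.sqrt n)).card := by
    refine Finset.card_le_card_of_injOn (fun r => n - r) ?_ ?_
    · intro r hr
      have h4 := h1 r hr
      have h5 := h2 r hr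
      simp only [Finset.coe_Icc, Set.mem_Icc]
      omega
    · intro r hr r' hr' h
      have h4 := h1 r hr
      have h5 := h1 r' hr'
      simp only at h
      omega
  rw [Nat.card_Icc] at h3
  omega

end Pool.Agent.H52T
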